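import Mathlib
import Pool.Agent.MM.Defs
import Pool.Agent.MM.FINA
import Pool.Agent.MM.FINB

/-!
The Morgan-Mullen conjecture holds for all but finitely many pairs `(q, n)`: there is a bound `N`
such that every extension `L / K` of finite fields of degree at least two with `|L| ≥ N` contains
a primitive element which is completely normal over `K`.
-/

namespace Pool.Agent.Results.MP_b75ed0_nt.AlmostAll

open Pool.Agent.MM

/-- **Main theorem.** The Morgan-Mullen conjecture, for all but finitely many `(q, n)`. -/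
theorem result :
    ∃ N : ℕ, ∀ (K L : Type) [Field K] [Field L] [Finite K] [Finite L] [Algebra K L],
      N ≤ Nat.card L →
      2 ≤ Module.finrank K L →
      ∃ α : L, (∀ x : L, x ≠ 0 → ∃ k : ℕ, α ^ k = x) ∧
        ∀ M : IntermediateField K L,
          LinearIndependent M
            (fun i : Fin (Module.finrank M L) => α ^ (Nat.card M ^ (i : ℕ))) := by
  obtain ⟨N0, hA⟩ := fina
  obtain ⟨Q0, hB⟩ := finb N0
  refine ⟨(Q0 + 2) ^ (N0 + 1), ?_⟩
  intro K L _ _ _ _ _ hN h2
  rcases le_or_gt N0 (Module.finrank K L) with h | h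
  · obtain ⟨x, hx1, hx2⟩ := hA K L h
    exact ⟨x, hx1, hx2⟩
  · have hQ : Q0 ≤ Nat.card K := by
      by_contra hlt
      push Not at hlt
      have h1 : Nat.card L = Nat.card K ^ (Module.finrank K L) := Module.natCard_eq_pow_finrank
      have h3 : Nat.card K ^ (Module.finrank K L) < (Q0 + 2) ^ (N0 + 1) := by
        calc Nat.card K ^ (Module.finrank K L) ≤ (Q0 + 2) ^ (Module.finrank K L) :=
              Nat.pow_le_pow_left (by omega) _
          _ < (Q0 + 2) ^ (N0 + 1) := Nat.pow_lt_pow_right (by omega) (by omega)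
      omega
    obtain ⟨x, hx1, hx2⟩ := hB K L h2 h.le hQ
    exact ⟨x, hx1, hx2⟩

end Pool.Agent.Results.MP_b75ed0_nt.AlmostAll
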